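import Mathlib
import Pool.Agent.K4H10.QR.Main

/-!
# The quantization law for the density of the regulator
-/

set_option autoImplicit false

namespace Pool.Agent.Results.MP_b2b689_ag.QuantizationLaw

open Filter Topology Pool.Agent.K4H10.QR

universe u w

/-- **Quantization law for the density of the regulator.** `X` is a smooth projective variety over a
number field for which numerical and homological equivalence agree on all powers, `U` any smooth
variety, and all bidegrees `(i, j)` with `2 j - i = n` are considered together. The total defect of
the density conjecture for `X ^ m × U`, divided by the dimension of the space of the classes of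
cycles on `X ^ m`, tends to an integer `κ` or to infinity; `κ = 0` if and only if the regulator has
dense image for all `m`. In particular the image is dense for all `m` if and only if the defect is
at most `(1 - ε)` times this dimension for infinitely many `m`. -/
theorem result (X : ChowPowers.{u}) (hX : X.IsCorr) (hs : X.IsStandard) (hN : X.NumIsHom)
    (U : Regulators.{u, w} X) (hU : U.IsRegulator) :
    ((∀ K : ℕ, ∀ᶠ m in atTop, K * X.classDim m ≤ U.defect m) ∨
      ∃ κ : ℕ, Tendsto (fun m => (U.defect m : ℝ) / X.classDim m) atTop (𝓝 κ) ∧
        (κ = 0 ↔ ∀ m, U.DenseImage m)) ∧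
    ∀ ε : ℝ, 0 < ε → ε ≤ 1 → ((∀ m, U.DenseImage m) ↔
      ∃ᶠ m in atTop, (U.defect m : ℝ) ≤ (1 - ε) * X.classDim m) := by
  refine ⟨U.law hX hs hN hU, fun ε hε hε1 => ⟨fun h => ?_, U.dense_of_frequently hX hs hN hU hε⟩⟩
  refine Eventually.frequently (Eventually.of_forall fun m => ?_)
  rw [(U.defect_eq_zero hU m).2 (h m), Nat.cast_zero]
  exact mul_nonneg (by linarith) (Nat.cast_nonneg _)

end Pool.Agent.Results.MP_b2b689_ag.QuantizationLaw
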