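import Pool.Agent.K4H54.BJ.Pic

/-!
# Surjectivity onto the Hodge classes for all motives over `ℚ̄`

`A` is an abelian category without `Ext` groups in degrees `≥ 2`, `D^b(A)` is its bounded derived
category, `T` is a tensor triangulated category and `R : T ⥤ D^b(A)` is a triangulated tensor
functor. For the problem: `A` is the category of polarizable mixed Hodge structures over `ℚ`,
`T = DM_gm(ℚ̄; ℚ)` and `R` is the Hodge realization, so that for `Y = M(X)^∨(j)[i]` the map
`Hom(𝟙, Y) ⟶ Hom(R 𝟙, R Y)` is the regulator `H^i_M(X, ℚ(j)) ⟶ H^i_H(X, ℚ(j))` and
`Hom(H⁰(𝟙), H⁰(Y)) = Hg^{i,j}(X)`.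

`C` is a class of objects which generates `T` and has the properties of the class of Chow motives:
it is closed under direct summands, tensor products and duals, the cohomology of its members is
semisimple, and there are no non-zero morphisms between the cohomology objects of different degrees
(purity).

Theorem. The regulators of all objects of `T` are surjective onto the Hodge classes if and only if
for all members of `C` they are surjective onto the Hodge classes (the Hodge conjecture) and
injective in all degrees.
-/

set_option autoImplicit false

open CategoryTheory MonoidalCategory Limits Pretriangulated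

universe w v u v' u'

namespace Pool.Agent.Results.MP_b2b689_ag.SurjectivityCriterion

open Pool.Agent.K4H54.BJ

/-- Surjectivity onto the Hodge classes for all objects is equivalent to surjectivity onto the
Hodge classes and injectivity of the regulators for pure objects. -/
theorem result
    {T : Type u} [Category.{v} T] [Preadditive T] [HasZeroObject T] [HasShift T ℤ]
    [∀ n : ℤ, (shiftFunctor T n).Additive] [Pretriangulated T] [IsTriangulated T]
    [IsIdempotentComplete T] [MonoidalCategory T] [MonoidalPreadditive T]
    {A : Type u'} [Category.{v'} A] [Abelian A] [HasDerivedCategory.{w} A]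
    [MonoidalCategory (DerivedCategory.Bounded A)]
    [MonoidalPreadditive (DerivedCategory.Bounded A)]
    (R : T ⥤ DerivedCategory.Bounded A) [R.CommShift ℤ] [R.IsTriangulated] [R.Monoidal]
    (C : T → Prop) (hA : ExtVan A) (ht : Tens R (Hb A)) (hC : ChowClass R (Hb A) C) :
    (∀ Y : T, HodgeSurj R (Hb A) Y) ↔
      ∀ Y : T, C Y → HodgeSurj R (Hb A) Y ∧ RegInj R Y :=
  surj_iff (dbHer hA) ht hC

end Pool.Agent.Results.MP_b2b689_ag.SurjectivityCriterion
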